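import Pool.Agent.helper20.Sz.B1

/-! Module SZ-P3: abstract genus argument. -/

open scoped symmDiff

namespace Pool.Agent.helper20.Sz
namespace P3

/-! ### Quotients by one more relation -/

theorem card_same {E : Type} (r r' : E → E → Prop) (a b : E)
    (h : ∀ x y, r' x y ↔ r x y ∨ (x = a ∧ y = b))
    (hab : (Quot.mk r a : Quot r) = Quot.mk r b) :
    Nat.card (Quot r') = Nat.card (Quot r) := by
  refine Nat.card_congr ⟨Quot.lift (fun x => Quot.mk r x) ?_, Quot.lift (fun x => Quot.mk r' x) ?_,
    ?_, ?_⟩
  · intro x y hxy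
    rcases (h x y).1 hxy with h1 | ⟨rfl, rfl⟩
    · exact Quot.sound h1
    · exact hab
  · intro x y hxy
    exact Quot.sound ((h x y).2 (Or.inl hxy))
  · intro z
    induction z using Quot.ind with | _ x => rfl
  · intro z
    induction z using Quot.ind with | _ x => rfl

theorem card_drop {E : Type} [Finite E] (r r' : E → E → Prop) (a b : E)
    (h : ∀ x y, r' x y ↔ r x y ∨ (x = a ∧ y = b))
    (hab : (Quot.mk r a : Quot r) ≠ Quot.mk r b) :
    Nat.card (Quot r') + 1 = Nat.card (Quot r) := by
  classical
  haveI : Fintype (Quot r) := Fintype.ofFinite _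
  let qa : Quot r := Quot.mk r a
  let qb : Quot r := Quot.mk r b
  let p : Quot r → Quot r' := Quot.lift (fun x => Quot.mk r' x)
    (fun x y hxy => Quot.sound ((h x y).2 (Or.inl hxy)))
  let f : Quot r → {z : Quot r // z ≠ qb} := fun z => if hz : z = qb then ⟨qa, hab⟩ else ⟨z, hz⟩
  let F : Quot r' → {z : Quot r // z ≠ qb} := Quot.lift (fun x => f (Quot.mk r x)) (by
    intro x y hxy
    rcases (h x y).1 hxy with h1 | ⟨rfl, rfl⟩
    · rw [Quot.sound h1]
    · have e1 : f qa = ⟨qa, hab⟩ := dif_neg hab
      have e2 : f qb = ⟨qa, hab⟩ := dif_pos rfl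
      exact e1.trans e2.symm)
  have e : Quot r' ≃ {z : Quot r // z ≠ qb} := by
    refine ⟨F, fun z => p z.1, ?_, ?_⟩
    · intro z
      induction z using Quot.ind with | _ x =>
      show p (f (Quot.mk r x)).1 = _
      by_cases hx : (Quot.mk r x : Quot r) = qb
      · have e2 : f (Quot.mk r x) = ⟨qa, hab⟩ := dif_pos hx
        rw [e2]
        have e3 : p qa = p qb := Quot.sound ((h a b).2 (Or.inr ⟨rfl, rfl⟩))
        show p qa = p (Quot.mk r x)
        rw [e3, hx]
      · have e2 : f (Quot.mk r x) = ⟨Quot.mk r x, hx⟩ := dif_neg hx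
        rw [e2]
    · rintro ⟨z, hz⟩
      induction z using Quot.ind with | _ x =>
      exact dif_neg hz
  rw [Nat.card_congr e, Nat.card_eq_fintype_card, Nat.card_eq_fintype_card,
    Fintype.card_subtype_compl, Fintype.card_subtype_eq]
  have hpos : 0 < Fintype.card (Quot r) := Fintype.card_pos_iff.2 ⟨qb⟩
  omega

section aux
variable {X E : Type} [DecidableEq X] (K : Cube X E)

/-- the relation generated by the circles of `v` and the arcs of `G` -/
def R (v G : Finset X) (x y : E) : Prop :=
  K.same v x y ∨ ∃ c ∈ G, x = K.tail c ∧ y = K.head c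

/-- number of classes -/
noncomputable def kk (v G : Finset X) : ℕ := Nat.card (Quot (R K v G))

variable {K}

theorem R_insert (v G : Finset X) (e : X) (x y : E) :
    R K v (insert e G) x y ↔ R K v G x y ∨ (x = K.tail e ∧ y = K.head e) := by
  unfold R
  simp only [Finset.mem_insert]
  constructor
  · rintro (h | ⟨c, rfl | hc, h⟩)
    · exact Or.inl (Or.inl h)
    · exact Or.inr h
    · exact Or.inl (Or.inr ⟨c, hc, h⟩)
  · rintro ((h | ⟨c, hc, h⟩) | h)
    · exact Or.inl h
    · exact Or.inr ⟨c, Or.inr hc, h⟩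
    · exact Or.inr ⟨e, Or.inl rfl, h⟩

theorem kk_same (v G : Finset X) (e : X)
    (h : (Quot.mk (R K v G) (K.tail e) : Quot (R K v G)) = Quot.mk _ (K.head e)) :
    kk K v (insert e G) = kk K v G :=
  card_same _ _ _ _ (R_insert v G e) h

theorem kk_drop [Finite E] (v G : Finset X) (e : X)
    (h : (Quot.mk (R K v G) (K.tail e) : Quot (R K v G)) ≠ Quot.mk _ (K.head e)) :
    kk K v (insert e G) + 1 = kk K v G :=
  card_drop _ _ _ _ (R_insert v G e) h

theorem kk_empty (v : Finset X) : kk K v ∅ = K.num v := by
  unfold kk Cube.num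
  congr 2
  funext x y
  simp [R]

theorem kk_univ [Fintype X] (hK : K.IsCore) (v : Finset X) : kk K v Finset.univ =
    Nat.card (Quot fun x y : E => K.same ∅ x y ∨ ∃ c, x = K.tail c ∧ y = K.head c) := by
  unfold kk
  have key : ∀ (w w' : Finset X) (x y : E), R K w Finset.univ x y →
      (Quot.mk (R K w' Finset.univ) x : Quot (R K w' Finset.univ)) = Quot.mk _ y := by
    intro w w' x y hxy
    rcases hxy with h | ⟨c, hc, rfl, rfl⟩
    · have h1 := B1.inv_flip hK (fun x => (Quot.mk (R K w' Finset.univ) x :
        Quot (R K w' Finset.univ))) w' (w' ∆ w) (fun x y h => Quot.sound (Or.inl h))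
        (fun c _ => Quot.sound (Or.inr ⟨c, Finset.mem_univ _, rfl, rfl⟩)) x y
      refine h1 ?_
      rw [← symmDiff_assoc, symmDiff_self]
      rw [show (⊥ : Finset X) ∆ w = w from bot_symmDiff w]
      exact h
    · exact Quot.sound (Or.inr ⟨c, Finset.mem_univ _, rfl, rfl⟩)
  have h1 : Nat.card (Quot (R K v Finset.univ)) = Nat.card (Quot (R K ∅ Finset.univ)) := by
    refine Nat.card_congr ⟨Quot.lift (fun x => Quot.mk _ x) (key v ∅),
      Quot.lift (fun x => Quot.mk _ x) (key ∅ v), ?_, ?_⟩
    · intro z; induction z using Quot.ind with | _ x => rfl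
    · intro z; induction z using Quot.ind with | _ x => rfl
  rw [h1]
  congr 2
  funext x y
  simp [R]

/-- twice the genus -/
noncomputable def dl (K : Cube X E) (vB v G : Finset X) : ℤ :=
  (G.card : ℤ) + 2 * kk K v G - K.num (v ∆ (G ∩ (v ∆ vB))) - K.num (v ∆ (G \ (v ∆ vB)))

theorem dl_mono [Finite E] (hK : K.IsCore) (vB v G : Finset X) (e : X) (he : e ∉ G) :
    dl K vB v G ≤ dl K vB v (insert e G) := by
  have hcard : ((insert e G).card : ℤ) = G.card + 1 := by
    rw [Finset.card_insert_of_notMem he]; push_cast; ring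
  -- circles of `v ∆ G'` are contained in the classes of `R v G`
  have hloop : ∀ G' ⊆ G, K.Loop (v ∆ G') e →
      (Quot.mk (R K v G) (K.tail e) : Quot (R K v G)) = Quot.mk _ (K.head e) := by
    intro G' hG' h
    exact B1.inv_flip hK (fun x => (Quot.mk (R K v G) x : Quot (R K v G))) v G'
      (fun x y h => Quot.sound (Or.inl h))
      (fun c hc => Quot.sound (Or.inr ⟨c, hG' hc, rfl, rfl⟩)) _ _ h
  -- the number of circles after adding `e`
  have hnum : ∀ G' ⊆ G, (2 * kk K v G : ℤ) - K.num (v ∆ G') ≤
      1 + 2 * kk K v (insert e G) - K.num (v ∆ (insert e G')) := by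
    intro G' hG'
    have he' : e ∉ G' := fun h => he (hG' h)
    rw [B1.sd_insert' v G' he']
    by_cases hl : K.Loop (v ∆ G') e
    · have h1 := B1.num_flip_loop hK hl
      have h2 := kk_same v G e (hloop G' hG' hl)
      rw [h1, h2]
      push_cast
      linarith
    · have h1 := B1.num_flip_nonloop hK hl
      by_cases hq : (Quot.mk (R K v G) (K.tail e) : Quot (R K v G)) = Quot.mk _ (K.head e)
      · have h2 := kk_same v G e hq
        rw [h2, ← h1]
        push_cast
        linarith
      · have h2 := kk_drop v G e hq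
        rw [← h2, ← h1]
        push_cast
        linarith
  unfold dl
  by_cases hm : e ∈ v ∆ vB
  · have e1 : (insert e G) ∩ (v ∆ vB) = insert e (G ∩ (v ∆ vB)) := Finset.insert_inter_of_mem hm
    have e2 : (insert e G) \ (v ∆ vB) = G \ (v ∆ vB) := Finset.insert_sdiff_of_mem G hm
    rw [e1, e2, hcard]
    have := hnum (G ∩ (v ∆ vB)) Finset.inter_subset_left
    linarith
  · have e1 : (insert e G) ∩ (v ∆ vB) = G ∩ (v ∆ vB) := Finset.insert_inter_of_notMem hm
    have e2 : (insert e G) \ (v ∆ vB) = insert e (G \ (v ∆ vB)) :=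
      Finset.insert_sdiff_of_notMem G hm
    rw [e1, e2, hcard]
    have := hnum (G \ (v ∆ vB)) Finset.sdiff_subset
    linarith

theorem dl_mono' [Finite E] (hK : K.IsCore) (vB v G T : Finset X) :
    dl K vB v G ≤ dl K vB v (G ∪ T) := by
  induction T using Finset.induction_on with
  | empty => rw [Finset.union_empty]
  | insert e T _ ih =>
    rw [Finset.union_insert]
    by_cases he : e ∈ G ∪ T
    · rw [Finset.insert_eq_of_mem he]; exact ih
    · exact ih.trans (dl_mono hK vB v _ e he)

theorem dl_empty (vB v : Finset X) : dl K vB v ∅ = 0 := by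
  unfold dl
  rw [kk_empty, Finset.empty_inter, Finset.empty_sdiff]
  rw [show v ∆ (∅ : Finset X) = v from symmDiff_bot v]
  simp
  ring

theorem dl_univ [Fintype X] (hK : K.IsCore) (vB v : Finset X)
    (hg : K.num vB + K.num vBᶜ = Fintype.card X +
      2 * Nat.card (Quot fun x y : E => K.same ∅ x y ∨ ∃ c, x = K.tail c ∧ y = K.head c)) :
    dl K vB v Finset.univ = 0 := by
  unfold dl
  rw [kk_univ hK v, Finset.univ_inter, Finset.card_univ]
  have e1 : v ∆ (v ∆ vB) = vB := by
    rw [← symmDiff_assoc, symmDiff_self]; exact bot_symmDiff vB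
  have e2 : v ∆ (Finset.univ \ (v ∆ vB)) = vBᶜ := by
    ext x
    simp only [Finset.mem_symmDiff, Finset.mem_sdiff, Finset.mem_univ, true_and,
      Finset.mem_compl]
    tauto
  rw [e1, e2]
  have : ((K.num vB + K.num vBᶜ : ℕ) : ℤ) = ((Fintype.card X + 2 * Nat.card (Quot fun x y : E =>
    K.same ∅ x y ∨ ∃ c, x = K.tail c ∧ y = K.head c) : ℕ) : ℤ) := by rw [hg]
  push_cast at this
  linarith

/-- the genus of every pair vanishes -/
theorem dl_zero [Fintype X] [Finite E] (hK : K.IsCore) (vB v G : Finset X)
    (hg : K.num vB + K.num vBᶜ = Fintype.card X +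
      2 * Nat.card (Quot fun x y : E => K.same ∅ x y ∨ ∃ c, x = K.tail c ∧ y = K.head c)) :
    dl K vB v G = 0 := by
  have h1 := dl_mono' hK vB v ∅ G
  have h2 := dl_mono' hK vB v G Finset.univ
  rw [Finset.empty_union, dl_empty] at h1
  rw [Finset.union_eq_right.2 (Finset.subset_univ G), dl_univ hK vB v hg] at h2
  exact le_antisymm h2 h1

end aux

variable {X E : Type} [DecidableEq X] [Fintype X] [Finite E] {K : Cube X E}

/-- If the two extreme states `vB` and `vBᶜ` have together as many circles as Euler's formula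
allows, then the side conditions hold. -/
theorem sides (hK : K.IsCore) (vB : Finset X)
    (hg : K.num vB + K.num vBᶜ = Fintype.card X +
      2 * Nat.card (Quot fun x y : E => K.same ∅ x y ∨ ∃ c, x = K.tail c ∧ y = K.head c))
    (eta : X → Bool) (heta : ∀ c c', (eta c = eta c' ↔ (c ∈ vB ↔ c' ∈ vB))) :
    K.Side1 eta ∧ K.Side2 eta := by
  constructor
  · intro v c c' hne hcc hl hl' hn heq
    have hB := (heta c c').1 heq
    have hz := dl_zero hK vB v {c, c'} hg
    have hk : kk K v {c, c'} = K.num v := by
      rw [kk_same v {c'} c (Quot.sound (Or.inl hl)),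
        show ({c'} : Finset X) = insert c' ∅ from rfl,
        kk_same v ∅ c' (Quot.sound (Or.inl hl')), kk_empty]
    have hcd : (({c, c'} : Finset X).card : ℤ) = 2 := by
      rw [Finset.card_pair hne]; rfl
    have h1 := B1.num_flip_loop hK hl
    have h2 := B1.num_flip_nonloop hK hn
    have h3 : (v ∆ {c}) ∆ {c'} = v ∆ {c, c'} := by
      rw [show ({c, c'} : Finset X) = insert c {c'} from rfl,
        B1.sd_insert v {c'} (by simpa using hne)]
    rw [h3] at h2
    unfold dl at hz
    rw [hk, hcd] at hz
    by_cases hm : c ∈ v ∆ vB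
    · have hm' : c' ∈ v ∆ vB := by
        rw [Finset.mem_symmDiff] at hm ⊢; tauto
      have e1 : ({c, c'} : Finset X) ∩ (v ∆ vB) = {c, c'} := by
        ext x; simp only [Finset.mem_inter, Finset.mem_insert, Finset.mem_singleton]
        constructor
        · exact fun h => h.1
        · rintro (rfl | rfl)
          · exact ⟨Or.inl rfl, hm⟩
          · exact ⟨Or.inr rfl, hm'⟩
      have e2 : ({c, c'} : Finset X) \ (v ∆ vB) = ∅ := by
        ext x; simp only [Finset.mem_sdiff, Finset.mem_insert, Finset.mem_singleton,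
          Finset.notMem_empty, iff_false]
        rintro ⟨rfl | rfl, h⟩
        · exact h hm
        · exact h hm'
      rw [e1, e2, show v ∆ (∅ : Finset X) = v from symmDiff_bot v] at hz
      omega
    · have hm' : c' ∉ v ∆ vB := by
        rw [Finset.mem_symmDiff] at hm ⊢; tauto
      have e1 : ({c, c'} : Finset X) \ (v ∆ vB) = {c, c'} := by
        ext x; simp only [Finset.mem_sdiff, Finset.mem_insert, Finset.mem_singleton]
        constructor
        · exact fun h => h.1
        · rintro (rfl | rfl)
          · exact ⟨Or.inl rfl, hm⟩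
          · exact ⟨Or.inr rfl, hm'⟩
      have e2 : ({c, c'} : Finset X) ∩ (v ∆ vB) = ∅ := by
        ext x; simp only [Finset.mem_inter, Finset.mem_insert, Finset.mem_singleton,
          Finset.notMem_empty, iff_false]
        rintro ⟨rfl | rfl, h⟩
        · exact hm h
        · exact hm' h
      rw [e1, e2, show v ∆ (∅ : Finset X) = v from symmDiff_bot v] at hz
      omega
  · intro v c c' hcc hn hj
    by_contra hne
    have hne' : c ≠ c' := fun h => hne (by rw [h])
    have hB : ¬ (c ∈ vB ↔ c' ∈ vB) := fun h => hne ((heta c c').2 h)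
    have hz := dl_zero hK vB v {c, c'} hg
    have hn' : ¬ K.Loop v c' := by
      intro h
      rcases hj with ⟨h1, h2⟩ | ⟨h1, h2⟩
      · exact hn (B1.trans hK h1 (B1.trans hK h (B1.symm hK h2)))
      · exact hn (B1.trans hK h1 (B1.trans hK (B1.symm hK h) (B1.symm hK h2)))
    have hk1 : kk K v {c} + 1 = K.num v := by
      rw [← kk_empty v]
      refine kk_drop v ∅ c ?_
      intro h
      let s : Setoid E := ⟨K.same v, hK.eqv v⟩
      have h1 := congrArg (Quot.lift (fun x => (Quot.mk (K.same v) x : Quot (K.same v))) (by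
        intro x y hxy
        rcases hxy with h2 | ⟨c0, h2, _⟩
        · exact Quot.sound h2
        · exact absurd h2 (Finset.notMem_empty _))) h
      exact hn (Quotient.exact (s := s) h1)
    have hk2 : kk K v {c, c'} = kk K v {c} := by
      rw [show ({c, c'} : Finset X) = insert c' {c} from Finset.pair_comm c c']
      refine kk_same v {c} c' ?_
      have q : ∀ x y, K.same v x y → (Quot.mk (R K v {c}) x : Quot (R K v {c})) = Quot.mk _ y :=
        fun x y h => Quot.sound (Or.inl h)
      have qc : (Quot.mk (R K v {c}) (K.tail c) : Quot (R K v {c})) = Quot.mk _ (K.head c) :=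
        Quot.sound (Or.inr ⟨c, Finset.mem_singleton_self _, rfl, rfl⟩)
      rcases hj with ⟨h1, h2⟩ | ⟨h1, h2⟩
      · rw [← q _ _ h1, ← q _ _ h2, qc]
      · rw [← q _ _ h2, ← q _ _ h1, qc]
    have hcd : (({c, c'} : Finset X).card : ℤ) = 2 := by
      rw [Finset.card_pair hne']; rfl
    have h1 := B1.num_flip_nonloop hK hn
    have h2 := B1.num_flip_nonloop hK hn'
    unfold dl at hz
    rw [hk2, hcd] at hz
    by_cases hm : c ∈ v ∆ vB
    · have hm' : c' ∉ v ∆ vB := by
        rw [Finset.mem_symmDiff] at hm ⊢; tauto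
      have e1 : ({c, c'} : Finset X) ∩ (v ∆ vB) = {c} := by
        ext x; simp only [Finset.mem_inter, Finset.mem_insert, Finset.mem_singleton]
        constructor
        · rintro ⟨rfl | rfl, h⟩
          · rfl
          · exact absurd h hm'
        · rintro rfl
          exact ⟨Or.inl rfl, hm⟩
      have e2 : ({c, c'} : Finset X) \ (v ∆ vB) = {c'} := by
        ext x; simp only [Finset.mem_sdiff, Finset.mem_insert, Finset.mem_singleton]
        constructor
        · rintro ⟨rfl | rfl, h⟩
          · exact absurd hm h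
          · rfl
        · rintro rfl
          exact ⟨Or.inr rfl, hm'⟩
      rw [e1, e2] at hz
      omega
    · have hm' : c' ∈ v ∆ vB := by
        rw [Finset.mem_symmDiff] at hm ⊢; tauto
      have e1 : ({c, c'} : Finset X) ∩ (v ∆ vB) = {c'} := by
        ext x; simp only [Finset.mem_inter, Finset.mem_insert, Finset.mem_singleton]
        constructor
        · rintro ⟨rfl | rfl, h⟩
          · exact absurd h hm
          · rfl
        · rintro rfl
          exact ⟨Or.inr rfl, hm'⟩
      have e2 : ({c, c'} : Finset X) \ (v ∆ vB) = {c} := by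
        ext x; simp only [Finset.mem_sdiff, Finset.mem_insert, Finset.mem_singleton]
        constructor
        · rintro ⟨rfl | rfl, h⟩
          · rfl
          · exact absurd hm' h
        · rintro rfl
          exact ⟨Or.inl rfl, hm⟩
      rw [e1, e2] at hz
      omega

end P3
end Pool.Agent.helper20.Sz
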