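import Pool.Agent.helper20.Sz.Sys

/-! Module SZ-P4: faces of the diagram are the circles of the two extreme states. -/

open scoped symmDiff

namespace Pool.Agent.helper20.Sz
namespace P4

variable {D : LinkDiagram}

/-- the next port of the face -/
def nx (D : LinkDiagram) (x : Fin D.n × Fin 4) : Fin D.n × Fin 4 :=
  ((D.mate x).1, (D.mate x).2 + 1)

/-- the state in which the ports `x` with `o x = b` are connected with the next port -/
def IsSt (o : Fin D.n × Fin 4 → Bool) (b : Bool) (v : Finset (Fin D.n)) : Prop :=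
  ∀ c, c ∈ v ↔ o (c, 0) = !b

theorem o1 {o : Fin D.n × Fin 4 → Bool} (ho : D.Checker o) (i : Fin D.n) :
    o (i, 1) = !o (i, 0) := ho.1 i 0

theorem o2 {o : Fin D.n × Fin 4 → Bool} (ho : D.Checker o) (i : Fin D.n) :
    o (i, 2) = o (i, 0) := by
  have h := ho.1 i 1
  rw [o1 ho i, Bool.not_not] at h
  exact h

theorem o3 {o : Fin D.n × Fin 4 → Bool} (ho : D.Checker o) (i : Fin D.n) :
    o (i, 3) = !o (i, 0) := by
  have h := ho.1 i 2
  rw [o2 ho i] at h
  exact h

theorem o_nx {o : Fin D.n × Fin 4 → Bool} (ho : D.Checker o) (x : Fin D.n × Fin 4) :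
    o (nx D x) = o x := by
  have h1 : o (nx D x) = !o (D.mate x) := ho.1 (D.mate x).1 (D.mate x).2
  rw [h1, ho.2 x, Bool.not_not]

theorem step_sig {o : Fin D.n × Fin 4 → Bool} (ho : D.Checker o) {b : Bool}
    {v : Finset (Fin D.n)} (hv : IsSt o b v) (x : Fin D.n × Fin 4) (hx : o x = b) :
    (Quot.mk (D.Step v) (Sum.inl x) : Quot (D.Step v)) = Quot.mk _ (Sum.inl (x.1, x.2 + 1)) := by
  obtain ⟨i, a⟩ := x
  have h1 := o1 ho i
  have h2 := o2 ho i
  have h3 := o3 ho i
  have hi := hv i
  fin_cases a
  · refine Quot.sound (LinkDiagram.Step.zero01 i ?_)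
    rw [hi]
    change o (i, 0) = b at hx
    rw [hx]; cases b <;> simp
  · refine Quot.sound (LinkDiagram.Step.one12 i ?_)
    rw [hi]
    change o (i, 1) = b at hx
    rw [← hx, h1, Bool.not_not]
  · refine Quot.sound (LinkDiagram.Step.zero23 i ?_)
    rw [hi]
    change o (i, 2) = b at hx
    rw [← hx, h2]; cases o (i, 0) <;> simp
  · refine Quot.sound (LinkDiagram.Step.one30 i ?_)
    rw [hi]
    change o (i, 3) = b at hx
    rw [← hx, h3, Bool.not_not]

/-- the face of a port of the state -/
def gm (o : Fin D.n × Fin 4 → Bool) (b : Bool) (x : Fin D.n × Fin 4) :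
    Quot (fun x y : Fin D.n × Fin 4 => y = nx D x) :=
  if o x = b then Quot.mk _ (x.1, x.2 + 1) else Quot.mk _ x

theorem gm_of {o : Fin D.n × Fin 4 → Bool} {b : Bool} {x : Fin D.n × Fin 4} (h : o x = b) :
    gm o b x = Quot.mk _ (x.1, x.2 + 1) := if_pos h

theorem gm_not {o : Fin D.n × Fin 4 → Bool} {b : Bool} {x : Fin D.n × Fin 4} (h : o x = !b) :
    gm o b x = Quot.mk _ x := if_neg (by rw [h]; cases b <;> simp)

theorem gm_mate {o : Fin D.n × Fin 4 → Bool} (ho : D.Checker o) (b : Bool)
    (x : Fin D.n × Fin 4) : gm o b x = gm o b (D.mate x) := by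
  have hm := ho.2 x
  by_cases h : o x = b
  · have h' : o (D.mate x) = !b := by rw [hm, h]
    rw [gm_of h, gm_not h']
    refine (Quot.sound ?_).symm
    unfold nx
    rw [D.mate_mate]
  · have h1 : o x = !b := by cases b <;> simp_all
    have h' : o (D.mate x) = b := by rw [hm, h1, Bool.not_not]
    rw [gm_not h1, gm_of h']
    exact Quot.sound rfl

/-- the backward map -/
def bm (o : Fin D.n × Fin 4 → Bool) (b : Bool) : D.Point →
    Quot (fun x y : Fin D.n × Fin 4 => y = nx D x) ⊕ Fin D.m
  | Sum.inl x => Sum.inl (gm o b x)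
  | Sum.inr j => Sum.inr j

theorem bm_step {o : Fin D.n × Fin 4 → Bool} (ho : D.Checker o) {b : Bool}
    {v : Finset (Fin D.n)} (hv : IsSt o b v) (x y : D.Point) (h : D.Step v x y) :
    bm o b x = bm o b y := by
  cases h with
  | edge x => exact congrArg Sum.inl (gm_mate ho b x)
  | zero01 i h =>
    have h0 : o (i, 0) = b := by
      rw [hv i] at h; cases b <;> simp_all
    have h1 : o (i, 1) = !b := by rw [o1 ho i, h0]
    refine congrArg Sum.inl ?_
    rw [gm_of h0, gm_not h1]
    rfl
  | zero23 i h =>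
    have h0 : o (i, 2) = b := by
      rw [hv i] at h; rw [o2 ho i]; cases b <;> simp_all
    have h1 : o (i, 3) = !b := by rw [o3 ho i, ← o2 ho i, h0]
    refine congrArg Sum.inl ?_
    rw [gm_of h0, gm_not h1]
    rfl
  | one12 i h =>
    rw [hv i] at h
    have h0 : o (i, 1) = b := by rw [o1 ho i, h, Bool.not_not]
    have h1 : o (i, 2) = !b := by rw [o2 ho i, h]
    refine congrArg Sum.inl ?_
    rw [gm_of h0, gm_not h1]
    rfl
  | one30 i h =>
    rw [hv i] at h
    have h0 : o (i, 3) = b := by rw [o3 ho i, h, Bool.not_not]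
    refine congrArg Sum.inl ?_
    rw [gm_of h0, gm_not h]
    rfl

/-- the orientation of a face -/
def fo {o : Fin D.n × Fin 4 → Bool} (ho : D.Checker o) :
    Quot (fun x y : Fin D.n × Fin 4 => y = nx D x) → Bool :=
  Quot.lift o (fun x y h => by rw [h, o_nx ho])

theorem card_state {o : Fin D.n × Fin 4 → Bool} (ho : D.Checker o) {b : Bool}
    {v : Finset (Fin D.n)} (hv : IsSt o b v) :
    Nat.card (Quot (D.Step v)) = Nat.card {z // fo ho z = !b} + D.m := by
  have hfo : ∀ x, fo ho (gm o b x) = !b := by
    intro x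
    by_cases h : o x = b
    · rw [gm_of h]
      change o (x.1, x.2 + 1) = !b
      rw [ho.1 x.1 x.2]
      exact congrArg _ h
    · have h1 : o x = !b := by cases b <;> simp_all
      rw [gm_not h1]
      exact h1
  let F : D.Point → {z // fo ho z = !b} ⊕ Fin D.m := fun x => match x with
    | Sum.inl x => Sum.inl ⟨gm o b x, hfo x⟩
    | Sum.inr j => Sum.inr j
  have hF : ∀ x y, D.Step v x y → F x = F y := by
    intro x y h
    have h1 := bm_step ho hv x y h
    rcases x with x | x <;> rcases y with y | y
    · refine congrArg Sum.inl (Subtype.ext ?_)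
      exact Sum.inl.inj h1
    · exact absurd h1 (by simp [bm])
    · exact absurd h1 (by simp [bm])
    · exact congrArg Sum.inr (Sum.inr.inj h1)
  have hE : ∀ x : Fin D.n × Fin 4, o x = (!b) →
      (Quot.mk (D.Step v) (Sum.inl x) : Quot (D.Step v)) = Quot.mk _ (Sum.inl (nx D x)) := by
    intro x hx
    have h1 : (Quot.mk (D.Step v) (Sum.inl x) : Quot (D.Step v)) =
      Quot.mk _ (Sum.inl (D.mate x)) := Quot.sound (LinkDiagram.Step.edge x)
    rw [h1]
    exact step_sig ho hv (D.mate x) (by rw [ho.2 x, hx, Bool.not_not])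
  let s : Quot (fun x y : Fin D.n × Fin 4 => y = nx D x) → Option (Quot (D.Step v)) :=
    Quot.lift (fun x => if o x = (!b) then some (Quot.mk _ (Sum.inl x)) else none) (by
      intro x y h
      subst h
      by_cases hx : o x = (!b)
      · have hx' : o (nx D x) = (!b) := by rw [o_nx ho, hx]
        rw [if_pos hx, if_pos hx', hE x hx]
      · have hx' : ¬ o (nx D x) = (!b) := by rw [o_nx ho]; exact hx
        rw [if_neg hx, if_neg hx'])
  have hs : ∀ x, s (gm o b x) = some (Quot.mk _ (Sum.inl x)) := by
    intro x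
    by_cases h : o x = b
    · rw [gm_of h, step_sig ho hv x h]
      have h1 : o (x.1, x.2 + 1) = !b := by
        rw [ho.1 x.1 x.2]; exact congrArg _ h
      exact if_pos h1
    · have h1 : o x = !b := by cases b <;> simp_all
      rw [gm_not h1]
      exact if_pos h1
  have hbij : Function.Bijective (Quot.lift F hF) := by
    constructor
    · intro p q
      induction p using Quot.ind with | _ x => ?_
      induction q using Quot.ind with | _ y => ?_
      intro h
      change F x = F y at h
      rcases x with x | x <;> rcases y with y | y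
      · have h1 : gm o b x = gm o b y := congrArg Subtype.val (Sum.inl.inj h)
        have h2 := hs x
        rw [h1, hs y] at h2
        exact (Option.some.inj h2).symm
      · exact absurd h (by simp [F])
      · exact absurd h (by simp [F])
      · rw [show x = y from Sum.inr.inj h]
    · rintro (⟨z, hz⟩ | j)
      · induction z using Quot.ind with | _ x => ?_
        refine ⟨Quot.mk _ (Sum.inl x), ?_⟩
        exact congrArg Sum.inl (Subtype.ext (gm_not hz))
      · exact ⟨Quot.mk _ (Sum.inr j), rfl⟩
  rw [Nat.card_congr (Equiv.ofBijective _ hbij), Nat.card_sum, Nat.card_fin]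

theorem card_quot_eqv {α : Type} (r : α → α → Prop) :
    Nat.card (Quot fun x y : α => (Quot.mk r x : Quot r) = Quot.mk r y) = Nat.card (Quot r) := by
  refine Nat.card_congr ⟨Quot.lift (fun x => Quot.mk r x) (fun x y h => h),
    Quot.lift (fun x => Quot.mk _ x) (fun x y h => Quot.sound (Quot.sound h)), ?_, ?_⟩
  · intro z
    induction z using Quot.ind with | _ x => rfl
  · intro z
    induction z using Quot.ind with | _ x => rfl

theorem num_state {o : Fin D.n × Fin 4 → Bool} (ho : D.Checker o) {b : Bool}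
    {v : Finset (Fin D.n)} (hv : IsSt o b v) (t : Fin D.n → Bool) (rot : Bool) :
    (D.cube t rot).num v = Nat.card {z // fo ho z = !b} + D.m := by
  rw [← card_state ho hv]
  exact card_quot_eqv (D.Step v)

theorem card_faces {o : Fin D.n × Fin 4 → Bool} (ho : D.Checker o) :
    Nat.card {z // fo ho z = true} + Nat.card {z // fo ho z = false} =
      Nat.card (Quot fun x y : Fin D.n × Fin 4 => y = nx D x) := by
  classical
  have := Fintype.ofFinite (Quot fun x y : Fin D.n × Fin 4 => y = nx D x)
  have h := Nat.card_congr (Equiv.sumCompl (fun z => fo ho z = true))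
  rw [Nat.card_sum] at h
  rw [← h]
  congr 1
  refine Nat.card_congr (Equiv.subtypeEquivRight ?_)
  intro z
  simp

theorem join_port (t : Fin D.n → Bool) (rot : Bool) (i : Fin D.n) (a : Fin 4) :
    (Quot.mk _ (Sum.inl (i, a)) : Quot fun x y : D.Point => (D.cube t rot).same ∅ x y ∨
      ∃ c, x = (D.cube t rot).tail c ∧ y = (D.cube t rot).head c) =
    Quot.mk _ (Sum.inl (i, 0)) := by
  have h01 : (Quot.mk _ (Sum.inl (i, 0)) : Quot fun x y : D.Point => (D.cube t rot).same ∅ x y ∨
      ∃ c, x = (D.cube t rot).tail c ∧ y = (D.cube t rot).head c) =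
    Quot.mk _ (Sum.inl (i, 1)) :=
    Quot.sound (Or.inl (Quot.sound (LinkDiagram.Step.zero01 i (Finset.notMem_empty i))))
  have h23 : (Quot.mk _ (Sum.inl (i, 2)) : Quot fun x y : D.Point => (D.cube t rot).same ∅ x y ∨
      ∃ c, x = (D.cube t rot).tail c ∧ y = (D.cube t rot).head c) =
    Quot.mk _ (Sum.inl (i, 3)) :=
    Quot.sound (Or.inl (Quot.sound (LinkDiagram.Step.zero23 i (Finset.notMem_empty i))))
  have hth : (Quot.mk _ ((D.cube t rot).tail i) : Quot fun x y : D.Point =>
      (D.cube t rot).same ∅ x y ∨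
      ∃ c, x = (D.cube t rot).tail c ∧ y = (D.cube t rot).head c) =
    Quot.mk _ ((D.cube t rot).head i) := Quot.sound (Or.inr ⟨i, rfl, rfl⟩)
  have h02 : (Quot.mk _ (Sum.inl (i, 0)) : Quot fun x y : D.Point => (D.cube t rot).same ∅ x y ∨
      ∃ c, x = (D.cube t rot).tail c ∧ y = (D.cube t rot).head c) =
    Quot.mk _ (Sum.inl (i, 2)) := by
    cases hr : rot <;> cases ht : t i
    · subst hr
      have e1 : (D.cube t false).tail i = Sum.inl (i, 2) := by simp [LinkDiagram.cube, ht]
      have e2 : (D.cube t false).head i = Sum.inl (i, 0) := by simp [LinkDiagram.cube, ht]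
      rw [e1, e2] at hth
      exact hth.symm
    · subst hr
      have e1 : (D.cube t false).tail i = Sum.inl (i, 0) := by simp [LinkDiagram.cube, ht]
      have e2 : (D.cube t false).head i = Sum.inl (i, 2) := by simp [LinkDiagram.cube, ht]
      rw [e1, e2] at hth
      exact hth
    · subst hr
      have e1 : (D.cube t true).tail i = Sum.inl (i, 3) := by
        simp only [LinkDiagram.cube, ht]; rfl
      have e2 : (D.cube t true).head i = Sum.inl (i, 1) := by
        simp only [LinkDiagram.cube, ht]; rfl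
      rw [e1, e2] at hth
      rw [h01, h23]
      exact hth.symm
    · subst hr
      have e1 : (D.cube t true).tail i = Sum.inl (i, 1) := by
        simp only [LinkDiagram.cube, ht]; rfl
      have e2 : (D.cube t true).head i = Sum.inl (i, 3) := by
        simp only [LinkDiagram.cube, ht]; rfl
      rw [e1, e2] at hth
      rw [h01, h23]
      exact hth
  fin_cases a
  · rfl
  · exact h01.symm
  · exact h02.symm
  · exact (h02.trans h23).symm

theorem card_join (D : LinkDiagram) (t : Fin D.n → Bool) (rot : Bool) :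
    Nat.card (Quot fun x y : D.Point => (D.cube t rot).same ∅ x y ∨
      ∃ c, x = (D.cube t rot).tail c ∧ y = (D.cube t rot).head c) =
    Nat.card (Quot fun i j : Fin D.n => ∃ a b : Fin 4, D.mate (i, a) = (j, b)) + D.m := by
  let p : D.Point → (Quot fun i j : Fin D.n => ∃ a b : Fin 4, D.mate (i, a) = (j, b)) ⊕ Fin D.m :=
    fun x => match x with
    | Sum.inl x => Sum.inl (Quot.mk _ x.1)
    | Sum.inr j => Sum.inr j
  have hp : ∀ x y, D.Step ∅ x y → p x = p y := by
    intro x y h
    cases h with
    | edge x =>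
      refine congrArg Sum.inl (Quot.sound ⟨x.2, (D.mate x).2, rfl⟩)
    | zero01 i h => rfl
    | zero23 i h => rfl
    | one12 i h => rfl
    | one30 i h => rfl
  have hp' : ∀ x y : D.Point, ((D.cube t rot).same ∅ x y ∨
      ∃ c, x = (D.cube t rot).tail c ∧ y = (D.cube t rot).head c) → p x = p y := by
    rintro x y (h | ⟨c, rfl, rfl⟩)
    · exact congrArg (Quot.lift p hp) h
    · rfl
  have hr : ∀ i j : Fin D.n, (∃ a b : Fin 4, D.mate (i, a) = (j, b)) →
      (Quot.mk _ (Sum.inl (i, 0)) : Quot fun x y : D.Point => (D.cube t rot).same ∅ x y ∨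
      ∃ c, x = (D.cube t rot).tail c ∧ y = (D.cube t rot).head c) =
      Quot.mk _ (Sum.inl (j, 0)) := by
    rintro i j ⟨a, b, h⟩
    rw [← join_port t rot i a, ← join_port t rot j b, ← h]
    exact Quot.sound (Or.inl (Quot.sound (LinkDiagram.Step.edge (i, a))))
  rw [← Nat.card_fin D.m, ← Nat.card_sum]
  refine Nat.card_congr ⟨Quot.lift p hp', Sum.elim (Quot.lift (fun i => Quot.mk _ (Sum.inl (i, 0)))
    hr) (fun j => Quot.mk _ (Sum.inr j)), ?_, ?_⟩
  · intro z
    induction z using Quot.ind with | _ x => ?_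
    rcases x with ⟨i, a⟩ | j
    · exact (join_port t rot i a).symm
    · rfl
  · rintro (z | j)
    · induction z using Quot.ind with | _ x => rfl
    · rfl

theorem count (D : LinkDiagram) (o : Fin D.n × Fin 4 → Bool) (ho : D.Checker o)
    (t : Fin D.n → Bool) (rot : Bool) (vB : Finset (Fin D.n))
    (hvB : vB = Finset.univ.filter fun c => o (c, 0) = false) :
    (D.cube t rot).num vB + (D.cube t rot).num vBᶜ = Fintype.card (Fin D.n) +
      2 * Nat.card (Quot fun x y : D.Point =>
        (D.cube t rot).same ∅ x y ∨ ∃ c, x = (D.cube t rot).tail c ∧ y = (D.cube t rot).head c) := by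
  have h1 : IsSt o true vB := by intro c; subst hvB; simp
  have h2 : IsSt o false vBᶜ := by intro c; subst hvB; simp
  rw [num_state ho h1 t rot, num_state ho h2 t rot, card_join D t rot, Fintype.card_fin]
  have h3 := card_faces ho
  have h4 : Nat.card (Quot fun x y : Fin D.n × Fin 4 => y = nx D x) = D.n + 2 * Nat.card (Quot fun i j : Fin D.n => ∃ a b : Fin 4, D.mate (i, a) = (j, b)) := D.planar
  change Nat.card {z // fo ho z = false} + D.m + (Nat.card {z // fo ho z = true} + D.m) = _
  omega

end P4
end Pool.Agent.helper20.Sz
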